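import Pool.Agent.J4.H93.EQ.EQ6

/-!
# All curves `y² = x³ + ax + c` with restricted digits against families over the same base: no congruences

Let `a = v_0`, `c = v_1` and further parameters `v_2, ..., v_(n+1)` run over translates of sets of integers with restricted
digits: `v_i = α_i + n_i`, where the `j`-th digit of `n_i ≥ 0` in the base `b_i` lies in a given set `D_(i, j)` with at least two
elements and the `α_i` are ANY integers.  Let `F_v : y² = x³ + A'(v)x + B'(v)` be any polynomial family whose discriminant does not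
vanish identically for `v_0 = -3u²`, `v_1 = 2u³` (the curve of the singular cubics `y² = x³ + v_0 x + v_1`), for example a fixed
elliptic curve, all the curves `y² = x³ + v_2 x + v_3` with independent parameters, or `y² = x³ + (a + h) x + (c + h')` with
fixed integers `h, h'`, not both `0`.  Then for all but a small proportion of the `v`, uniformly in the `α_i`, the modules
`E[m]`, `E : y² = x³ + ax + c`, and `F_v[m]` are not isomorphic over `ℚ` for any `m ≥ 2`, and they are not isomorphic over any
number field `L`, if `m` has a prime factor `l ≥ 3`, `l > [L : ℚ]`.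

Proof.  If two primes `q ≥ 5` divide `4a³ + 27c²` exactly once and do not divide `4A'(v)³ + 27B'(v)²`, then there are no
congruences (inertia acts by a transvection on `E[l]` and trivially on `F_v[l]`; theorem of the starting files).  The number of such
primes `q ≤ z` is for residues `v` modulo `∏ q²` a sum of independent random variables with the mean value at least
`(1/4) log log z - C` (points of the cuspidal curve and Schwartz-Zippel), so that fewer than two of them have the probability
`O((log z)^(-1/16))`; and the integers with restricted digits are uniformly distributed modulo `∏ q²` for `z` up to a power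
of the number of the digits, since all the `q` are larger than the bases (`Pool.Agent.J4.H93.EQ`).
-/

set_option autoImplicit false

namespace Pool.Agent.Results.MP_a60a76_nt.CurvesWithRestrictedDigits

open Finset
open scoped Classical

/-- The curve `y² = x³ + Ax + B` over `ℚ`. -/
def curve (A B : ℤ) : WeierstrassCurve ℚ := ⟨0, 0, 0, A, B⟩

/-- The group of its points over the algebraic closure of `ℚ`. -/
abbrev Points (A B : ℤ) : Type := ((curve A B).baseChange (AlgebraicClosure ℚ)).toAffine.Point

/-- The action of an automorphism `σ` of the algebraic closure on the points. -/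
noncomputable def galois (A B : ℤ) (σ : AlgebraicClosure ℚ ≃ₐ[ℚ] AlgebraicClosure ℚ) :
    Points A B →+ Points A B :=
  WeierstrassCurve.Affine.Point.map
    (σ : AlgebraicClosure ℚ →ₐ[ℚ] AlgebraicClosure ℚ)

/-- The `n`-torsion of `y² = x³ + Ax + B` and that of `y² = x³ + A'x + B'` are isomorphic as modules over the Galois group of the
field `L`: some map between the groups of points restricts to a bijective additive map of the `n`-torsion which commutes with all
automorphisms of the algebraic closure which fix `L`. -/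
def CongruentOver (L : IntermediateField ℚ (AlgebraicClosure ℚ)) (n : ℕ) (A B A' B' : ℤ) : Prop :=
  ∃ f : Points A B → Points A' B', (∀ P Q, n • P = 0 → n • Q = 0 → f (P + Q) = f P + f Q) ∧
    Set.BijOn f {P | n • P = 0} {Q | n • Q = 0} ∧
    ∀ σ ∈ L.fixingSubgroup, ∀ P : Points A B, n • P = 0 → f (galois A B σ P) = galois A' B' σ (f P)

/-- `y² = x³ + Ax + B` and `y² = x³ + A'x + B'` are elliptic curves, their `n`-torsion is not isomorphic over `ℚ` for any
`n ≥ 2`, and it is not isomorphic over any number field `L`, if `n` has a prime factor `l ≥ 3`, `l > [L : ℚ]`. -/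
def NoCongruence (A B A' B' : ℤ) : Prop :=
  4 * A ^ 3 + 27 * B ^ 2 ≠ 0 ∧ 4 * A' ^ 3 + 27 * B' ^ 2 ≠ 0 ∧
    (∀ n : ℕ, 2 ≤ n → ¬ CongruentOver ⊥ n A B A' B') ∧
    ∀ L : IntermediateField ℚ (AlgebraicClosure ℚ), FiniteDimensional ℚ L → ∀ l : ℕ, l.Prime → 3 ≤ l → Module.finrank ℚ L < l →
      ∀ n : ℕ, l ∣ n → ¬ CongruentOver L n A B A' B'

/-- The integers below `b ^ k` whose `j`-th digit in base `b` lies in `D j`, for all `j < k`. -/
def S (b : ℕ) (D : ℕ → Finset ℕ) (k : ℕ) : Finset ℕ :=
  (range (b ^ k)).filter (fun n : ℕ => ∀ j < k, n / b ^ j % b ∈ D j)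

/-- The polynomial `f(v_0, v_1, ..., v_(n+1))` restricted to `v_0 = -3u²`, `v_1 = 2u³`, a polynomial in `u, v_2, ..., v_(n+1)`. -/
noncomputable def restriction {n : ℕ} (f : MvPolynomial (Fin (n + 2)) ℤ) : MvPolynomial (Fin (n + 1)) ℤ :=
  MvPolynomial.aeval (Fin.cons (-3 * MvPolynomial.X 0 ^ 2) (Fin.cons (2 * MvPolynomial.X 0 ^ 3)
    (fun i : Fin n => MvPolynomial.X i.succ)) : Fin (n + 2) → MvPolynomial (Fin (n + 1)) ℤ) f

/-- Two primes suffice. -/
lemma no_congruence {A B A' B' : ℤ} (h : Pool.Agent.TH894.NJ.Two2 A B A' B') : NoCongruence A B A' B' := by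
  obtain ⟨q₁, q₂, hlt, x1, x2, d1, d2⟩ := h
  have h0 : Pool.Agent.W275.FM.dsc A B ≠ 0 := by
    intro h0
    apply x1.2.2.2
    rw [h0]
    exact dvd_zero _
  have h0' : Pool.Agent.W275.FM.dsc A' B' ≠ 0 := by
    intro h0
    apply d1
    rw [h0]
    exact dvd_zero _
  refine ⟨h0, h0', ?_, ?_⟩
  · rintro n hn ⟨f, h1, h2, h3⟩
    have hT : Pool.Agent.W275.FM.TorIso n A B A' B' :=
      ⟨f, h1, h2, fun σ P hP => h3 σ (by rw [IntermediateField.fixingSubgroup_bot]; exact Subgroup.mem_top _) P hP⟩
    have hbad := Pool.Agent.TH4.FZ.key_bad x1 hn h0' hT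
    exact d1 (hbad.2.2 _ _ (Pool.Agent.TH4.FZ.Mdl.self A' B'))
  · intro L hL l hl hl3 hlL n hln hC
    by_cases hq : q₁ = l
    · exact Pool.Agent.TH894.NJ.no_iso A B A' B' q₂ l n x2 d2 hl hl3 (by omega) hln L.fixingSubgroup
        (fun σ => Pool.Agent.TH894.NJ.pigeon L l hlL σ) hC
    · exact Pool.Agent.TH894.NJ.no_iso A B A' B' q₁ l n x1 d1 hl hl3 hq hln L.fixingSubgroup
        (fun σ => Pool.Agent.TH894.NJ.pigeon L l hlL σ) hC

/-- **All curves with restricted digits.**  Let `A'`, `B'` be polynomials in `v_0, ..., v_(n+1)` with integer coefficients such that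
`4A'³ + 27B'²` is not identically zero for `v_0 = -3u²`, `v_1 = 2u³`, and let `b_0, ..., b_(n+1) ≥ 2`.  There is `C` such that
for ALL integers `α_0, ..., α_(n+1)`, all `K ≥ 3`, all `k_0, ..., k_(n+1) ≥ K` and all sets `D_(i, j)` of at least two digits in
base `b_i`: if `v_i = α_i + n_i`, where `n_i < b_i ^ (k_i)` runs over the integers with the `j`-th digit in base `b_i` in the set
`D_(i, j)`, then for all but the proportion `C (log K) ^ (-1/16)` of the `v` the curves `E : y² = x³ + v_0 x + v_1` and
`F_v : y² = x³ + A'(v)x + B'(v)` are elliptic curves, `E[m]` and `F_v[m]` are not isomorphic as Galois modules over `ℚ` for any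
`m ≥ 2`, and they are not isomorphic over any number field `L`, if `m` has a prime factor `l ≥ 3`, `l > [L : ℚ]`. -/
theorem result (n : ℕ) (A' B' : MvPolynomial (Fin (n + 2)) ℤ) (h : restriction (4 * A' ^ 3 + 27 * B' ^ 2) ≠ 0)
    (b : Fin (n + 2) → ℕ) (hb : ∀ i, 2 ≤ b i) :
    ∃ C : ℝ, 0 < C ∧ ∀ α : Fin (n + 2) → ℤ, ∀ K : ℕ, 3 ≤ K → ∀ k : Fin (n + 2) → ℕ, (∀ i, K ≤ k i) →
      ∀ D : Fin (n + 2) → ℕ → Finset ℕ, (∀ i, ∀ j < k i, D i j ⊆ range (b i) ∧ 2 ≤ (D i j).card) →
      (((Fintype.piFinset (fun i => S (b i) (D i) (k i))).filter (fun v =>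
        ¬ NoCongruence (α 0 + v 0) (α 1 + v 1) (MvPolynomial.eval (fun i => α i + v i) A')
          (MvPolynomial.eval (fun i => α i + v i) B'))).card : ℝ) ≤
        C * (Real.log K) ^ (-(1 / 16) : ℝ) * ∏ i, ((S (b i) (D i) (k i)).card : ℝ) := by
  obtain ⟨C, hC, h⟩ := Pool.Agent.J4.H93.EQ.univ_digits A' B' h b hb
  refine ⟨C, hC, fun α K hK k hk D hD => ?_⟩
  refine le_trans ?_ (h α K hK k hk D hD)
  apply Nat.cast_le.2
  apply card_le_card
  intro v hv
  rw [mem_filter] at hv ⊢
  exact ⟨hv.1, fun hR => hv.2 (no_congruence hR)⟩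

end Pool.Agent.Results.MP_a60a76_nt.CurvesWithRestrictedDigits
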