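import Pool.Agent.J4.H54.FM.Main

/-!
# MP_a60a76_nt: all but finitely many of the curves congruent to a given curve have a denominator
# divisible by the `p`-th power of a large prime

**Theorem.** Let `E₀ : y² = x³ + A₀x + B₀` be an elliptic curve over `ℚ`, `A₀`, `B₀` integers, and `M`
any number. There are a finite set `F` of elliptic curves over `ℚ` and a number `C`, depending only on
`E₀` and `M`, with the following property. Let `E` be any elliptic curve over `ℚ` and `p ≥ 17` any prime
such that `E` is `p`-congruent to `E₀`. Then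

* either the denominator of `j(E)` is divisible by `q ^ p` for a prime `q ≥ M`, `q ≥ (p - 1) / 2`, not
  dividing `4A₀³ + 27B₀²`,
* or `E` is isomorphic to a curve in `F`, and if `p ≥ C`, then `E` is `l`-congruent to `E₀` for
  infinitely many primes `l`, that is (Faltings) `E` is isogenous to `E₀`.

So Frey's form of the conjecture (`E₀` fixed, `p` large) holds for all the curves `E` whose invariant
has a denominator which is not divisible by `q ^ p` for a prime `q ≥ M`, for instance for all `E`
whose denominator is not divisible by the 19th power of a prime `≥ M`; and for a fixed `E₀` the curves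
`E` of this kind congruent to `E₀` modulo any prime `p ≥ 17`, isogenous to `E₀` or not, form finitely
many isomorphism classes. No bound for the height or for `p` is assumed. Moreover all but
finitely many of the curves `E` congruent to `E₀` modulo a prime `p ≥ 17` have an invariant of height at
least `((p - 1) / 2) ^ p`, and at least `M ^ p` for any given `M`.

Proof. Let `v` be a prime not dividing `6 (4A₀³ + 27B₀²)`. (1) If `v(j(E)) < 0` then `p ∣ v(j(E))`, also
for `v = p` (`Y673.FM.loc`). (2) In this case `p ≤ 2 v + 1` (`raise_loc`): the points of `E[p]` which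
reduce to smooth points of the nodal cubic form a proper subgroup `T`, a Frobenius element `τ` preserves
the distance of a point to the node, so that `τ P = ± P` modulo `T` with the same sign for all
`P`; hence `τ ∓ 1` is not injective on `E[p] ≅ E₀[p]`, and there is a point `R` of order `p` on `E₀` with
`τ R = ± R`. The abscissas of `R, 2R, …, ((p - 1) / 2) R` have different residues, which are fixed
by the Frobenius automorphism, so that there are at most `v` of them. (3) If `v(j(E)) ≥ 0` for
all the `v` not dividing `6 M! (4A₀³ + 27B₀²)`, then `12 ∣ v(4A³ + 27B²)` for these `v`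
(`Y673.FM.locG`), so `3 ∣ v(j)` and `2 ∣ v(j - 1728)`. There are finitely many such `j` (by the unit
equation, `K4H56.IF.fin32`), and finitely many such `4A³ + 27B²` up to 12th powers, so finitely many `E`.
-/

set_option autoImplicit false

open WeierstrassCurve
open scoped Classical

namespace Pool.Agent.Results.MP_a60a76_nt.FinitelyManyPartners

/-- The curve `y² = x³ + Ax + B` over `ℚ`. -/
def curve (A B : ℚ) : WeierstrassCurve ℚ := ⟨0, 0, 0, A, B⟩

/-- The group of its points over the algebraic closure of `ℚ`. -/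
abbrev Points (A B : ℚ) : Type := ((curve A B).baseChange (AlgebraicClosure ℚ)).toAffine.Point

/-- The action of an automorphism `σ` of the algebraic closure on the points. -/
noncomputable def galois (A B : ℚ) (σ : AlgebraicClosure ℚ ≃ₐ[ℚ] AlgebraicClosure ℚ) :
    Points A B →+ Points A B :=
  WeierstrassCurve.Affine.Point.map (σ : AlgebraicClosure ℚ →ₐ[ℚ] AlgebraicClosure ℚ)

/-- The curves `y² = x³ + Ax + B` and `y² = x³ + A'x + B'` are `p`-congruent: some map between the
groups of points restricts to a bijective additive map between the groups of points killed by `p` which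
commutes with the Galois group. -/
def Congruent (p : ℕ) (A B A' B' : ℚ) : Prop :=
  ∃ f : Points A B → Points A' B', (∀ P Q, p • P = 0 → p • Q = 0 → f (P + Q) = f P + f Q) ∧
    Set.BijOn f {P | p • P = 0} {Q | p • Q = 0} ∧
    ∀ (σ : AlgebraicClosure ℚ ≃ₐ[ℚ] AlgebraicClosure ℚ) (P : Points A B), p • P = 0 →
      f (galois A B σ P) = galois A' B' σ (f P)

/-- The curves `y² = x³ + Ax + B` and `y² = x³ + A'x + B'` are isomorphic over `ℚ`. -/
def Isomorphic (A B A' B' : ℚ) : Prop := ∃ t : ℚ, t ≠ 0 ∧ A = t ^ 4 * A' ∧ B = t ^ 6 * B'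

/-- The invariant of `y² = x³ + Ax + B`. -/
def jInvariant (A B : ℚ) : ℚ := 6912 * A ^ 3 / (4 * A ^ 3 + 27 * B ^ 2)

/-- The denominator of the invariant of `y² = x³ + Ax + B` is divisible by `q ^ p` for some prime
`q ≥ M`, `q ≥ (p - 1) / 2`, which does not divide `4A₀³ + 27B₀²`. -/
def LargePole (M p : ℕ) (A₀ B₀ : ℤ) (A B : ℚ) : Prop :=
  ∃ q : ℕ, q.Prime ∧ M ≤ q ∧ p ≤ 2 * q + 1 ∧ ¬ (q : ℤ) ∣ 4 * A₀ ^ 3 + 27 * B₀ ^ 2 ∧
    q ^ p ∣ (jInvariant A B).den

/-- **All but finitely many of the curves congruent to a given curve modulo a prime `p ≥ 17` have a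
denominator divisible by the `p`-th power of a large prime.** -/
theorem result (A₀ B₀ : ℤ) (h₀ : 4 * A₀ ^ 3 + 27 * B₀ ^ 2 ≠ 0) (M : ℕ) :
    ∃ (F : Finset (ℚ × ℚ)) (C : ℕ), ∀ A B : ℚ, 4 * A ^ 3 + 27 * B ^ 2 ≠ 0 →
      ∀ p : ℕ, p.Prime → 17 ≤ p → Congruent p A B A₀ B₀ →
        LargePole M p A₀ B₀ A B ∨
        ((∃ P ∈ F, Isomorphic A B P.1 P.2) ∧
          (C ≤ p → {l : ℕ | l.Prime ∧ Congruent l A B A₀ B₀}.Infinite)) := by
  have hiff : ∀ (A B : ℚ) (p : ℕ), Congruent p A B A₀ B₀ ↔
      ∃ f : Pool.Agent.Y673.Loc.EP A B → Pool.Agent.Y673.Loc.EP (A₀ : ℚ) (B₀ : ℚ),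
        Pool.Agent.Y673.FM.Cong A B (A₀ : ℚ) (B₀ : ℚ) p f := by
    intro A B p
    constructor
    · rintro ⟨f, h1, h2, h3⟩
      exact ⟨f, h1, h2, h3⟩
    · rintro ⟨f, h1, h2, h3⟩
      exact ⟨f, h1, h2, h3⟩
  obtain ⟨F, C, h⟩ := Pool.Agent.J4.H54.FM.main_rat A₀ B₀ h₀ M
  refine ⟨F, C, fun A B hD p hp h17 hcong => ?_⟩
  rcases h A B hD p hp h17 ((hiff A B p).1 hcong) with h1 | ⟨h1, h2⟩
  · exact Or.inl h1
  · refine Or.inr ⟨h1, fun hC => ?_⟩
    have e : {l : ℕ | l.Prime ∧ Congruent l A B A₀ B₀} = {l : ℕ | l.Prime ∧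
        ∃ f : Pool.Agent.Y673.Loc.EP A B → Pool.Agent.Y673.Loc.EP (A₀ : ℚ) (B₀ : ℚ),
        Pool.Agent.Y673.FM.Cong A B (A₀ : ℚ) (B₀ : ℚ) l f} := by
      ext l
      exact and_congr_right fun _ => hiff A B l
    rw [e]
    exact h2 hC

end Pool.Agent.Results.MP_a60a76_nt.FinitelyManyPartners
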