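import Pool.Agent.J4.H78.RP.Frey
import Pool.Agent.Results.MP_a60a76_nt.ThinSequences

set_option autoImplicit false

/-!
# MP_a60a76_nt: congruences of the elliptic curves whose coefficients are the integer parts of real
# polynomials at integers with restricted digits

Let `P_0, …, P_3` be real polynomials of degrees `d_j ≥ 2` whose leading coefficients `α_j` are not
jointly Liouville, for instance of different degrees with irrational algebraic leading coefficients. Let
`S` be the set of the integers with `k` digits in base `b` whose `i`-th digit lies in a given set `D i` of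
at least two digits, for all `i`; so `S` may have only `2 ^ k` elements, an arbitrarily small power of
`b ^ k`. Consider the curves

`E_n : y² = x³ + ⌊P_0(n)⌋ x + ⌊P_1(n)⌋`,  `E'_n : y² = x³ + ⌊P_2(n)⌋ x + ⌊P_3(n)⌋`,  `n ∈ S`.

**Theorem.** For every `ε > 0` there are `δ > 0` and `k₀`, depending on `b`, `ε`, the `d_j` and the `α_j`
only, such that for all `k ≥ k₀`, ALL sets of digits and all such polynomials (with arbitrary lower
coefficients, which may depend on `k`), for all `n ∈ S` with at most `ε |S|` exceptions the curve `E_n` is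
not congruent, modulo ANY `m ≥ 2`,

* to the curve `E'_n`;
* to any elliptic curve over `ℚ` with a (short integral equation of) discriminant at most `b ^ (δ k)`; in
  fact one prime `q > b ^ (δ k)` divides the discriminants of all curves congruent to `E_n`;
* for every `k' ≥ k`, all sets of digits `D'` and all polynomials `P'_j` with the same degrees and
  leading coefficients, to the curves `y² = x³ + ⌊P'_0(n')⌋ x + ⌊P'_1(n')⌋` and
  `y² = x³ + ⌊P'_2(n')⌋ x + ⌊P'_3(n')⌋`, where `n'` has `k'` digits in the sets `D' i`, with at most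
  `b ^ (- δ k) |S'|` exceptions `n'` in the set `S'` of these integers.

Proof. A prime `q ≥ 5` which divides `4A³ + 27B²` exactly once divides the discriminants of all curves
congruent to `E` (projects FM and FML of helper275, starting files). The integers `⌊P_j(n)⌋` are jointly
equidistributed modulo all `q ≤ b ^ (κ k)` along `S`: this follows from exponential sums with a power
saving, for which the Weyl type inequality of helper93 for integers with random digits is used
(`Pool.Agent.J4.H93.PD`, `Pool.Agent.J4.H78.RD`). Then Turan's sieve is applied as in the starting file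
`ThinSequences` (helper457), uniformly in the sequence.
-/

open Finset

namespace Pool.Agent.Results.MP_a60a76_nt.RestrictedDigitPolynomials

open Pool.Agent.Results.MP_a60a76_nt.AllSmallerCurves (Congruent disc)
open Pool.Agent.Results.MP_a60a76_nt.ThinSequences (SomeCongruence LargePrime)

/-- the integers `n` with `0 ≤ n < b ^ k` whose digit number `i` in base `b` lies in `D i`, for all `i < k` -/
def S (b : ℕ) (D : ℕ → Finset ℕ) (k : ℕ) : Finset ℕ :=
  (range (b ^ k)).filter (fun n => ∀ i < k, n / b ^ i % b ∈ D i)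

/-- every set of digits has at least two elements -/
def Digits (b : ℕ) (D : ℕ → Finset ℕ) (k : ℕ) : Prop := ∀ i < k, D i ⊆ range b ∧ 2 ≤ (D i).card

/-- the coefficient of `x ^ (d j)` in `P j` is `α j`, and the higher coefficients vanish -/
def Leading (d : Fin 4 → ℕ) (α : Fin 4 → ℝ) (P : Fin 4 → Polynomial ℝ) : Prop :=
  ∀ j, (P j).natDegree ≤ d j ∧ (P j).coeff (d j) = α j

/-- the integer part of `P j (n)` -/
noncomputable def val (P : Fin 4 → Polynomial ℝ) (j : Fin 4) (n : ℕ) : ℤ := ⌊(P j).eval (n : ℝ)⌋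

/-- The real numbers `α j` which belong to the same degree `d j` are not jointly Liouville: the integral linear
combinations of them with coefficients of absolute value at most `H` have distance at least `c H ^ (- μ)` from the
integers. -/
def NotJointlyLiouville {r : ℕ} (d : Fin r → ℕ) (α : Fin r → ℝ) : Prop :=
  ∃ c μ : ℝ, 0 < c ∧ 0 ≤ μ ∧ ∀ (m : ℕ) (h : Fin r → ℤ) (a : ℤ) (H : ℝ), (∃ j, d j = m ∧ h j ≠ 0) →
    (∀ j, |(h j : ℝ)| ≤ H) → c * H ^ (-μ) ≤ |∑ j, (if d j = m then (h j : ℝ) * α j else 0) - a|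

theorem single {r : ℕ} (d : Fin r → ℕ) (α : Fin r → ℝ) (hinj : Function.Injective d) (hirr : ∀ j, Irrational (α j))
    (hL : ∀ j, ¬ Liouville (α j)) : NotJointlyLiouville d α := by
  have h1 : ∀ j, ∃ n : ℕ, ∀ a b : ℤ, 1 < b → 1 / (b : ℝ) ^ n ≤ |α j - a / b| := by
    intro j
    have h2 := hL j
    unfold Liouville at h2
    push Not at h2
    obtain ⟨n, hn⟩ := h2
    refine ⟨n, fun a b hb => hn a b hb ?_⟩
    intro h3
    apply hirr j
    refine ⟨(a : ℚ) / b, ?_⟩
    rw [h3]
    push_cast
    rfl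
  choose n hn using h1
  obtain ⟨N, hN⟩ : ∃ N : ℕ, N = univ.sup n := ⟨_, rfl⟩
  have hnN : ∀ j, n j ≤ N := fun j => by
    rw [hN]
    exact le_sup (f := n) (mem_univ j)
  refine ⟨1 / 2 ^ N, N, by positivity, Nat.cast_nonneg _, fun m h a H hex hH => ?_⟩
  obtain ⟨j₀, hj₀, hh⟩ := hex
  have hsum : ∑ j, (if d j = m then (h j : ℝ) * α j else 0) = h j₀ * α j₀ := by
    rw [sum_eq_single j₀]
    · rw [if_pos hj₀]
    · intro j _ hj
      rw [if_neg]
      intro h2
      exact hj (hinj (h2.trans hj₀.symm))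
    · intro h2
      exact absurd (mem_univ _) h2
  rw [hsum]
  have habs : (1 : ℝ) ≤ |(h j₀ : ℝ)| := by
    have : 1 ≤ |h j₀| := Int.one_le_abs hh
    exact_mod_cast this
  have hH1 : 1 ≤ H := habs.trans (hH j₀)
  have hpos : (0 : ℝ) < |(h j₀ : ℝ)| := by linarith
  have hne : (h j₀ : ℝ) ≠ 0 := by exact_mod_cast hh
  have h3 := hn j₀ (2 * a * (h j₀).sign) (2 * |h j₀|) (by
    have : 1 ≤ |h j₀| := Int.one_le_abs hh
    omega)
  have h4 : (((2 * a * (h j₀).sign : ℤ) : ℝ)) / ((2 * |h j₀| : ℤ) : ℝ) = a / h j₀ := by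
    have h5 : ((h j₀).sign : ℝ) * |(h j₀ : ℝ)| = h j₀ := by
      have := Int.sign_mul_abs (h j₀)
      exact_mod_cast this
    have h6 : ((h j₀).sign : ℝ) * h j₀ = |(h j₀ : ℝ)| := by
      have := Int.sign_mul_self (h j₀)
      exact_mod_cast this
    push_cast
    rw [div_eq_div_iff (by positivity) hne]
    calc 2 * (a : ℝ) * ((h j₀).sign : ℝ) * h j₀ = 2 * a * (((h j₀).sign : ℝ) * h j₀) := by ring
      _ = a * (2 * |(h j₀ : ℝ)|) := by rw [h6]; ring
  rw [h4] at h3
  have h7 : (h j₀ : ℝ) * α j₀ - a = h j₀ * (α j₀ - a / h j₀) := by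
    field_simp
  rw [h7, abs_mul]
  have h8 : 1 / 2 ^ N * H ^ (-(N : ℝ)) ≤ 1 / ((2 * |h j₀| : ℤ) : ℝ) ^ n j₀ := by
    rw [Real.rpow_neg (by linarith), Real.rpow_natCast, ← one_div, one_div_mul_one_div, ← mul_pow]
    apply one_div_le_one_div_of_le (by push_cast; positivity)
    push_cast
    calc (2 * |(h j₀ : ℝ)|) ^ n j₀ ≤ (2 * H) ^ n j₀ :=
          pow_le_pow_left₀ (by positivity) (by have := hH j₀; linarith) _
      _ ≤ (2 * H) ^ N := pow_le_pow_right₀ (by linarith) (hnN j₀)
  have h9 := abs_nonneg (α j₀ - a / h j₀)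
  nlinarith

theorem pf_of {d : ℕ} {α : ℝ} {F : Polynomial ℝ} (h : F.natDegree ≤ d ∧ F.coeff d = α) :
    Pool.Agent.J4.H93.PD.PF d α (fun y => F.eval y) :=
  ⟨fun j => F.coeff j, h.2, fun y => Polynomial.eval_eq_sum_range' (Nat.lt_succ_of_le h.1) y⟩

/-- **Congruences of elliptic curves at integers with restricted digits.** (1) Let `A = ⌊P_0⌋`,
`B = ⌊P_1⌋`, `A' = ⌊P_2⌋`, `B' = ⌊P_3⌋` be the integer parts of real polynomials with the degrees `d j` and
the leading coefficients `α j`, which are not jointly Liouville. For all `ε > 0` there are `δ > 0` and `k₀`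
such that for all `k ≥ k₀`, all sets of digits `D` and all such polynomials, all but the proportion `ε` of
the `n ∈ S b D k` have the following properties: `y² = x³ + A(n)x + B(n)` and `y² = x³ + A'(n)x + B'(n)` are
elliptic curves without congruences modulo integers `m ≥ 2`; a prime above `b ^ (δ k)` divides the
discriminants of all curves with a congruence with `y² = x³ + A(n)x + B(n)`; and for all `k' ≥ k`, all sets
of digits `D'` and all such polynomials `P'`, all but the proportion `b ^ (- δ k)` of the `n' ∈ S b D' k'`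
give elliptic curves without a congruence with `y² = x³ + A(n)x + B(n)`. (2) Irrational numbers which are
not Liouville numbers are not jointly Liouville if their degrees are different. -/
theorem result (b : ℕ) (hb : 2 ≤ b) (d : Fin 4 → ℕ) (hd : ∀ j, 2 ≤ d j) (α : Fin 4 → ℝ) :
    (NotJointlyLiouville d α → ∀ ε : ℝ, 0 < ε → ∃ δ : ℝ, 0 < δ ∧ ∃ k₀ : ℕ, ∀ k : ℕ, k₀ ≤ k →
      ∀ D : ℕ → Finset ℕ, Digits b D k → ∀ P : Fin 4 → Polynomial ℝ, Leading d α P →
      ({n : ℕ | n ∈ S b D k ∧ ¬ (disc (val P 0 n) (val P 1 n) ≠ 0 ∧ disc (val P 2 n) (val P 3 n) ≠ 0 ∧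
        ¬ SomeCongruence (val P 0 n) (val P 1 n) (val P 2 n) (val P 3 n) ∧
        LargePrime (((b : ℝ) ^ k) ^ δ) (val P 0 n) (val P 1 n) ∧
        ∀ k' : ℕ, k ≤ k' → ∀ D' : ℕ → Finset ℕ, Digits b D' k' → ∀ P' : Fin 4 → Polynomial ℝ, Leading d α P' →
          ({n' : ℕ | n' ∈ S b D' k' ∧
            (disc (val P' 0 n') (val P' 1 n') = 0 ∨ disc (val P' 2 n') (val P' 3 n') = 0 ∨
              SomeCongruence (val P 0 n) (val P 1 n) (val P' 0 n') (val P' 1 n') ∨
              SomeCongruence (val P 0 n) (val P 1 n) (val P' 2 n') (val P' 3 n'))}.ncard : ℝ) ≤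
            ((b : ℝ) ^ k) ^ (-δ) * (S b D' k').card)}.ncard : ℝ) ≤ ε * (S b D k).card) ∧
    (Function.Injective d → (∀ j, Irrational (α j) ∧ ¬ Liouville (α j)) → NotJointlyLiouville d α) := by
  refine ⟨fun hα ε hε => ?_, fun hinj h => single d α hinj (fun j => (h j).1) (fun j => (h j).2)⟩
  obtain ⟨δ, hδ, k₀, h⟩ := Pool.Agent.J4.H78.RP.frey b hb d hd α hα ε hε
  refine ⟨δ, hδ, k₀, fun k hk D hD P hP => ?_⟩
  have h1 := h k hk D hD (fun j y => (P j).eval y) (fun j => pf_of (hP j))
  refine le_trans ?_ h1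
  refine Nat.cast_le.2 (Set.ncard_le_ncard ?_ ((S b D k).finite_toSet.subset fun t ht => ht.1))
  rintro n ⟨hn, hbad⟩
  refine ⟨hn, fun hgood => hbad ?_⟩
  obtain ⟨a1, a2, a3, a4, a5⟩ := hgood
  exact ⟨a1, a2, a3, a4, fun k' hk' D' hD' P' hP' =>
    a5 k' hk' D' hD' (fun j y => (P' j).eval y) (fun j => pf_of (hP' j))⟩

end Pool.Agent.Results.MP_a60a76_nt.RestrictedDigitPolynomials
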