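import Pool.Agent.J4.H57.FM2.Near

/-!
# MP_a60a76_nt: two one-parameter families at rational parameters, all primes and number fields at once

Let `j = F/G` and `j' = F'/G'` be rational functions over `ℚ` in lowest terms (the second one may be
constant), and let `P ≠ Q` be two points of the projective line over `ℚ` each of which is a pole of
exactly one of `j`, `j'`. For example `j(t) = t` and `j'(t) = 1 / t` (poles `∞` and `0`), `j(t) = t` and
`j'` any function with a rational pole and without a pole at `∞`, or the invariants of the Legendre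
families `y² = x(x - 1)(x - t)` and `y² = x(x - 1)(x - t - c)`, `c ≠ 0`. A rational number `t` is
`N`-exceptional if for some prime `p ≥ N`, `p ≥ 13`, larger than the degrees of `F, G, F', G'` and some
number field `L` of degree less than `p` there are elliptic curves over `L` with invariants `j(t)` and
`j'(t)` and with the same `p`-division field, for instance `p`-congruent ones.

(1) At most `C X ^ (2 / N) (log X) ^ k` of the rational numbers of height at most `X` (there are about
`12 X ^ 2 / π ^ 2` of them) are `N`-exceptional.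
(2) Let `φ` be any map from `ℚ` to a metric space (the inclusion in `ℝ` or `ℚ_l`, for example) and
`τ > 0`. For all `ξ` outside a set of Hausdorff dimension at most `2 / (N τ)` and ALL pairs `j, j'` as
above only finitely many `t` with `dist (φ t) ξ ≤ κ H(t) ^ (-τ)` are `N`-exceptional.
(3) For all `ξ` outside a set of Hausdorff dimension zero and all `τ > 0` there is `N = N(ξ, τ)` such
that the same holds for all pairs `j, j'`.

For the primes `p > 17` of the conjecture one can take `N = 19` if the degrees are at most `18`; the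
exponent in (1) is `2 / 19`, the dimension in (2) is at most `2 / (19 τ)`.

The starting files have (1) for integers `t` and finite poles, with `C (log X) ^ k` (helper424,
`IntegralParameters`), and a theorem on one family and a fixed curve with an exponent `ε` for the
primes `p ≥ N(ε)` (`MP_f5d5f4_nt.UniformInFamilies`, `PairsNearAPoint`, where `N` is not explicit).

Proof. The local theorem of helper673 (`Pool.Agent.Y673.FM.loc`) shows that the linear forms of the two
points are `p`-th powers up to finitely many primes, also at the infinite point. The pairs of such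
integers are counted, and a covering argument gives (2) and (3).
-/

set_option autoImplicit false

open WeierstrassCurve Polynomial

namespace Pool.Agent.Results.MP_a60a76_nt.TwoFamiliesNearAPoint

section
variable {K : Type} [Field K]

/-- The curve `y² = x³ + Ax + B` over the field `K`. -/
def curve (A B : K) : WeierstrassCurve K := ⟨0, 0, 0, A, B⟩

/-- Its `j`-invariant. -/
noncomputable def invariant (A B : K) : K := 1728 * (4 * A ^ 3) / (4 * A ^ 3 + 27 * B ^ 2)

open scoped Classical in
/-- The group of its points over the algebraic closure of `K`. -/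
abbrev Points (A B : K) : Type := ((curve A B).baseChange (AlgebraicClosure K)).toAffine.Point

open scoped Classical in
/-- The action of an automorphism `σ` of the algebraic closure on the points. -/
noncomputable def galois (A B : K) (σ : AlgebraicClosure K ≃ₐ[K] AlgebraicClosure K) :
    Points A B →+ Points A B :=
  WeierstrassCurve.Affine.Point.map (σ : AlgebraicClosure K →ₐ[K] AlgebraicClosure K)

open scoped Classical in
/-- The curves `y² = x³ + Ax + B` and `y² = x³ + A'x + B'` are `p`-congruent over `K`: some map between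
the groups of points restricts to a bijective additive map between the groups of points killed by `p`
which commutes with the Galois group. -/
def Congruent (p : ℕ) (A B A' B' : K) : Prop :=
  ∃ f : Points A B → Points A' B', (∀ P Q, p • P = 0 → p • Q = 0 → f (P + Q) = f P + f Q) ∧
    Set.BijOn f {P | p • P = 0} {Q | p • Q = 0} ∧
    ∀ (σ : AlgebraicClosure K ≃ₐ[K] AlgebraicClosure K) (P : Points A B), p • P = 0 →
      f (galois A B σ P) = galois A' B' σ (f P)

open scoped Classical in
/-- The curves have the same `p`-division field over `K`: an automorphism of the algebraic closure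
fixes the points killed by `p` of the first curve if and only if it fixes those of the second. -/
def SameDivisionField (p : ℕ) (A B A' B' : K) : Prop :=
  ∀ σ : AlgebraicClosure K ≃ₐ[K] AlgebraicClosure K,
    (∀ P : Points A B, p • P = 0 → galois A B σ P = P) ↔
      (∀ Q : Points A' B', p • Q = 0 → galois A' B' σ Q = Q)

end

/-- The point `P` of the projective line over `ℚ` (`none` is the point at infinity) is a pole of the
rational function `F / G` in lowest terms. -/
def IsPole (F G : ℚ[X]) : Option ℚ → Prop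
  | some π => G.eval π = 0
  | none => G.natDegree < F.natDegree

/-- There are two points of the projective line over `ℚ` each of which is a pole of exactly one of
`F / G` and `F' / G'`. -/
def TwoSeparatingPoles (F G F' G' : ℚ[X]) : Prop :=
  ∃ P Q : Option ℚ, P ≠ Q ∧
    ((IsPole F G P ∧ ¬ IsPole F' G' P) ∨ (¬ IsPole F G P ∧ IsPole F' G' P)) ∧
    ((IsPole F G Q ∧ ¬ IsPole F' G' Q) ∨ (¬ IsPole F G Q ∧ IsPole F' G' Q))

/-- the height of a rational number -/
def height (t : ℚ) : ℕ := max t.num.natAbs t.den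

/-- The rational number `t` is `N`-exceptional for `F/G` and `F'/G'`: it is not a pole, and for some
prime `p ≥ N`, `p ≥ 13`, larger than the degrees of the four polynomials and some number field `L` of
degree less than `p` there are elliptic curves over `L` with the invariants `F(t)/G(t)` and
`F'(t)/G'(t)` and the same `p`-division field. -/
def Exceptional (N : ℕ) (F G F' G' : ℚ[X]) (t : ℚ) : Prop :=
  G.eval t ≠ 0 ∧ G'.eval t ≠ 0 ∧ ∃ p : ℕ, p.Prime ∧ N ≤ p ∧ 13 ≤ p ∧ F.natDegree < p ∧
    G.natDegree < p ∧ F'.natDegree < p ∧ G'.natDegree < p ∧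
    ∃ (L : Type) (_ : Field L) (_ : NumberField L) (A B A' B' : L),
      Module.finrank ℚ L < p ∧ 4 * A ^ 3 + 27 * B ^ 2 ≠ 0 ∧ 4 * A' ^ 3 + 27 * B' ^ 2 ≠ 0 ∧
      invariant A B = ((F.eval t / G.eval t : ℚ) : L) ∧
      invariant A' B' = ((F'.eval t / G'.eval t : ℚ) : L) ∧
      SameDivisionField p A B A' B'

theorem inv_eq {K : Type} [Field K] (A B : K) : Pool.Agent.Y673.Loc.jv A B = invariant A B := by
  unfold Pool.Agent.Y673.Loc.jv invariant
  ring

theorem isPole_iff (F G : ℚ[X]) (P : Option ℚ) :
    IsPole F G P ↔ Pool.Agent.J4.H57.FM2.IsPole F G P := by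
  rcases P with _ | π <;> exact Iff.rfl

theorem rel_of {N : ℕ} {F G F' G' : ℚ[X]} {t : ℚ} (h : Exceptional N F G F' G' t) :
    Pool.Agent.J4.H57.FM2.Rel' N F G F' G' t := by
  obtain ⟨h1, h2, p, g1, g2, g3, g4, g5, g6, g7, L, iF, iN, A, B, A', B', g8, g9, g10, g11, g12,
    g13⟩ := h
  refine ⟨p, g2, g3, g4, g5, g6, g7, h1, h2, p, g1, le_rfl, L, iF, iN, A, B, A', B', g8, g9, g10,
    ?_, ?_, g13⟩
  · rw [inv_eq, g11, eq_ratCast]
  · rw [inv_eq, g12, eq_ratCast]

theorem poles_of {F G F' G' : ℚ[X]} (h : TwoSeparatingPoles F G F' G') :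
    ∃ P Q : Option ℚ, P ≠ Q ∧ Pool.Agent.J4.H57.FM2.PoleOfOne F G F' G' P ∧
      Pool.Agent.J4.H57.FM2.PoleOfOne F G F' G' Q := by
  obtain ⟨P, Q, h1, h2, h3⟩ := h
  simp only [isPole_iff] at h2 h3
  exact ⟨P, Q, h1, h2, h3⟩

/-- **Theorem.** (1) Let `F/G`, `F'/G'` be in lowest terms with two separating poles, `N ≥ 1`. There
are `C`, `k` such that for `X ≥ 2` at most `C X ^ (2 / N) (log X) ^ k` rational numbers of height at
most `X` are `N`-exceptional.
(2) For `N ≥ 1`, `τ > 0` and a map `φ` from `ℚ` to a metric space `M` there is `E ⊆ M` of Hausdorff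
dimension at most `2 / (N τ)` such that for all `ξ ∉ E`, all pairs `F/G`, `F'/G'` as in (1) and all
`κ` only finitely many `t` with `dist (φ t) ξ ≤ κ H(t) ^ (-τ)` are `N`-exceptional.
(3) For a map `φ` from `ℚ` to a metric space `M` there is `E ⊆ M` of Hausdorff dimension zero such that
for all `ξ ∉ E` and `τ > 0` there is `N` such that for all pairs `F/G`, `F'/G'` as in (1) and all `κ`
only finitely many `t` with `dist (φ t) ξ ≤ κ H(t) ^ (-τ)` are `N`-exceptional.
(4) `p`-congruent curves have the same `p`-division field. -/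
theorem result :
    (∀ F G F' G' : ℚ[X], IsCoprime F G → IsCoprime F' G' → G ≠ 0 → G' ≠ 0 →
      TwoSeparatingPoles F G F' G' → ∀ N : ℕ, 1 ≤ N → ∃ (C : ℝ) (k : ℕ), ∀ X : ℕ, 2 ≤ X →
        {t : ℚ | height t ≤ X ∧ Exceptional N F G F' G' t}.Finite ∧
        (({t : ℚ | height t ≤ X ∧ Exceptional N F G F' G' t}.ncard : ℕ) : ℝ) ≤
          C * (X : ℝ) ^ (2 / (N : ℝ)) * Real.log X ^ k) ∧
    (∀ (M : Type) [MetricSpace M] (φ : ℚ → M) (N : ℕ), 1 ≤ N → ∀ τ : ℝ, 0 < τ →
      ∃ E : Set M, dimH E ≤ ENNReal.ofReal (2 / ((N : ℝ) * τ)) ∧ ∀ ξ : M, ξ ∉ E →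
        ∀ F G F' G' : ℚ[X], IsCoprime F G → IsCoprime F' G' → G ≠ 0 → G' ≠ 0 →
          TwoSeparatingPoles F G F' G' → ∀ κ : ℝ,
            {t : ℚ | dist (φ t) ξ ≤ κ * (height t : ℝ) ^ (-τ) ∧
              Exceptional N F G F' G' t}.Finite) ∧
    (∀ (M : Type) [MetricSpace M] (φ : ℚ → M), ∃ E : Set M, dimH E = 0 ∧ ∀ ξ : M, ξ ∉ E →
      ∀ τ : ℝ, 0 < τ → ∃ N : ℕ,
        ∀ F G F' G' : ℚ[X], IsCoprime F G → IsCoprime F' G' → G ≠ 0 → G' ≠ 0 →
          TwoSeparatingPoles F G F' G' → ∀ κ : ℝ,
            {t : ℚ | dist (φ t) ξ ≤ κ * (height t : ℝ) ^ (-τ) ∧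
              Exceptional N F G F' G' t}.Finite) ∧
    ∀ (K : Type) [Field K] [CharZero K] (p : ℕ) (A B A' B' : K), Congruent p A B A' B' →
      SameDivisionField p A B A' B' := by
  refine ⟨?_, ?_, ?_, ?_⟩
  · intro F G F' G' hcop hcop' hG hG' hpol N hN
    obtain ⟨C, k, hC, h⟩ := Pool.Agent.J4.H57.FM2.count
      ⟨((F, G), (F', G')), hcop, hcop', hG, hG', poles_of hpol⟩ hN
    refine ⟨C, k, fun X hX => ?_⟩
    have hfin2 : {t : ℚ | Pool.Agent.J4.H57.FM2.ht t ≤ X ∧
        Pool.Agent.J4.H57.FM2.Rel' N F G F' G' t}.Finite :=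
      (Pool.Agent.J4.H57.FM2.finite_ht X).subset fun t ht => by
        have := ht.1
        exact_mod_cast this
    have hsub : {t : ℚ | height t ≤ X ∧ Exceptional N F G F' G' t} ⊆
        {t : ℚ | Pool.Agent.J4.H57.FM2.ht t ≤ X ∧
          Pool.Agent.J4.H57.FM2.Rel' N F G F' G' t} := fun t ht => ⟨ht.1, rel_of ht.2⟩
    refine ⟨hfin2.subset hsub, le_trans ?_ (h X hX)⟩
    exact_mod_cast Set.ncard_le_ncard hsub hfin2
  · intro M _ φ N hN τ hτ
    obtain ⟨E, hE, h⟩ := Pool.Agent.J4.H57.FM2.near_fixed M φ hN τ hτ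
    refine ⟨E, hE, fun ξ hξ F G F' G' hcop hcop' hG hG' hpol κ => ?_⟩
    exact (h ξ hξ ⟨((F, G), (F', G')), hcop, hcop', hG, hG', poles_of hpol⟩ κ).subset
      fun t ht => ⟨ht.1, rel_of ht.2⟩
  · intro M _ φ
    obtain ⟨E, hE, h⟩ := Pool.Agent.J4.H57.FM2.near_zero M φ
    refine ⟨E, hE, fun ξ hξ τ hτ => ?_⟩
    obtain ⟨N, hN⟩ := h ξ hξ τ hτ
    refine ⟨N, fun F G F' G' hcop hcop' hG hG' hpol κ => ?_⟩
    exact (hN ⟨((F, G), (F', G')), hcop, hcop', hG, hG', poles_of hpol⟩ κ).subset
      fun t ht => ⟨ht.1, rel_of ht.2⟩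
  · intro K _ _ p A B A' B' ⟨f, h1, h2, h3⟩
    exact Pool.Agent.Y673.FM.sameF_of f h2 h3

end Pool.Agent.Results.MP_a60a76_nt.TwoFamiliesNearAPoint
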